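import Pool.Agent.H343.AN.StC

set_option autoImplicit false
set_option linter.unusedSectionVars false

/-! # MP_aa4716_al, task C3 : chains near the antipodes are bounded -/

namespace Pool.Agent.H338.AN

open Pool.Agent.TH68 Pool.Agent.Helper97.Hyp Pool.Agent.H343.AN

section

variable {Γ : Type} [Group Γ] {W : WNorm Γ} {𝒜 : Type} [MulAction Γ 𝒜]

/-- translates of axes -/
lemma mem_smul_axis (Y : Sys Γ W 𝒜) (n : Γ) (A : 𝒜) (x : Pt W) :
    x ∈ Y.S (n • A) ↔ n⁻¹ • x ∈ Y.S A := by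
  constructor
  · intro hx
    have := Y.smul_mem n⁻¹ _ x hx
    rwa [inv_smul_smul] at this
  · intro hx
    have := Y.smul_mem n A _ hx
    rwa [smul_inv_smul] at this

/-- The invariant of the induction: `u` is a lift of `z` in good position for the axis `A`, and `b`
is a projection of `u`. -/
structure Inv (Y : Sys Γ W 𝒜) (R : Circ Y) (W' : WNorm (Γ ⧸ R.N)) (A : 𝒜) (t η : ℝ) (z : Pt W')
    (u b : Pt W) (m : Γ) : Prop where
  prj : prj W W' u = z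
  mem : m ∈ R.N
  red : Red R.N (m • pt W 1) u
  pd : R.ρ / 2 - η ≤ pd (Y.S A) (m • pt W 1) u
  near : ∃ s ∈ Y.S A, dist u s ≤ t
  pr : IsProj Y.θ (Y.S A) u b

/-- one step of the lifting -/
lemma Inv.step (hB : ToolB) {Y : Sys Γ W 𝒜} {R : Circ Y} {W' : WNorm (Γ ⧸ R.N)}
    (hQ : Quo W R.N W') (hρ : 10 ^ 6 * Y.θ ≤ R.ρ) {t η T : ℝ} (ht : 0 ≤ t) (hη : 0 ≤ η)
    (hT : 0 ≤ T) (hs : t + η + T ≤ R.ρ / 1000) {A : 𝒜} {z z' : Pt W'} {u b : Pt W} {m : Γ}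
    (h : Inv Y R W' A t η z u b m) (hz' : z' ∈ Zset R W' t η) (hd : dist z z' ≤ T) :
    ∃ u' b' m', Inv Y R W' A t η z' u' b' m' ∧ dist b b' ≤ T + Y.θ := by
  have hδ := Y.hδ
  have hθ := Y.hθ
  obtain ⟨v, hv, hred, A', hpd, s', hs', hvs⟩ := hz'
  obtain ⟨n, hn, hdn⟩ := exists_smul (W' := W') hQ u v
  have huv : dist u (n • v) ≤ T := by rw [hdn, h.prj, hv]; exact hd
  obtain ⟨s, hsA, hus⟩ := h.near
  have hred' : Red R.N (n • pt W 1) (n • v) := hred.smul n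
  have hpd' : R.ρ / 2 - η ≤ Pool.Agent.Helper97.Hyp.pd (Y.S (n • A')) (n • pt W 1) (n • v) := by
    rw [pd_smul (Y.Sne A') (mem_smul_axis Y n A')]
    exact hpd
  have hs'' : n • s' ∈ Y.S (n • A') := Y.smul_mem n A' s' hs'
  have hvs' : dist (n • v) (n • s') ≤ t := by rw [dist_smul]; exact hvs
  have hAB : A = n • A' := hB.ax Y R hρ (o := pt W 1) (t := t) (T := T) (h := R.ρ / 2 - η)
    h.mem hn ht hT (by linarith) (by linarith) h.red hred' huv h.pd hpd' hsA hus hs'' hvs'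
  rw [← hAB] at hpd' hs''
  obtain ⟨b', hb'⟩ := Y.proj A (n • v)
  refine ⟨n • v, b', n, ⟨by rw [prj_smul hn, hv], hn, hred', hpd', ⟨n • s', hs'', hvs'⟩, hb'⟩, ?_⟩
  have h1 := le_pd_of_proj h.pr hb'
  have h2 := pd_le_dist (Y.Sne A) u (n • v)
  linarith

/-- the projection of a lift is far from the translates of the entry point -/
lemma Inv.far {Y : Sys Γ W 𝒜} {R : Circ Y} {W' : WNorm (Γ ⧸ R.N)}
    (hQ : Quo W R.N W') {a r t η : ℝ} {A : 𝒜} {z : Pt W'} {u b e : Pt W} {m : Γ}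
    (h : Inv Y R W' A t η z u b m) (hz : a ≤ dist (pt W' 1) z)
    (he : dist (pt W 1) e ≤ a + r + 5 * Y.θ - R.ρ / 2 + η) {g : Γ} (hg : g ∈ R.G A) :
    R.ρ / 2 - (r + η + t + 6 * Y.θ) ≤ dist (g • e) b := by
  have hgN : g ∈ R.N := R.G_le A hg
  have h1 : dist (pt W' 1) z ≤ dist (g • pt W 1) u := by
    have := prj_le (W' := W') hQ (g • pt W 1) u
    rw [prj_smul hgN, prj_one, h.prj] at this
    exact this
  have h2 := dist_triangle4 (g • pt W 1) (g • e) b u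
  rw [dist_smul] at h2
  obtain ⟨s, hs, hus⟩ := h.near
  have h3 := proj_dist_le h.pr hs
  rw [dist_comm b u] at h2
  linarith

end

theorem c3 : ToolB → S_c3 := by
  intro hB Γ _ W 𝒜 _ Y R W' hQ hρ a r t η T hr ht hη hT hsum x y hxy
  have hδ := Y.hδ
  have hθ := Y.hθ
  rcases hxy.cases_head with rfl | ⟨c, hc, -⟩
  · rw [dist_self]
    linarith
  obtain ⟨u₀, hu₀, hred₀, A, hpd₀, s₀, hs₀, hus₀⟩ := hc.1.2
  obtain ⟨b₀, hb₀⟩ := Y.proj A u₀
  obtain ⟨e, he⟩ := Y.proj A (pt W 1)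
  have hInv₀ : Inv Y R W' A t η x u₀ b₀ 1 :=
    ⟨hu₀, R.N.one_mem, by rwa [one_smul], by rwa [one_smul], ⟨s₀, hs₀, hus₀⟩, hb₀⟩
  have hd₀ : dist (pt W 1) u₀ ≤ a + r := by
    have h1 := (red_iff hQ (pt W 1) u₀).1 hred₀
    rw [prj_one, hu₀] at h1
    rw [← h1]
    exact hc.1.1.2
  have hde : dist (pt W 1) e ≤ a + r + 5 * Y.θ - R.ρ / 2 + η := by
    have h1 := (hB.near Y A he hb₀ (by linarith)).1
    have h2 := dist_nonneg (x := u₀) (y := b₀)
    linarith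
  have hfar₀ : ∀ g ∈ R.G A, R.ρ / 2 - (r + η + t + 6 * Y.θ) ≤ dist (g • e) b₀ :=
    fun g hg => hInv₀.far hQ hc.1.1.1 hde hg
  have key : ∃ u b m, Inv Y R W' A t η y u b m ∧
      dist b₀ b ≤ 2 * (r + η + t + 6 * Y.θ) + 50 * Y.θ := by
    clear hc c
    induction hxy with
    | refl => exact ⟨u₀, b₀, 1, hInv₀, by rw [dist_self]; linarith⟩
    | tail _ hbc ih =>
      obtain ⟨u, b, m, hI, hd⟩ := ih
      obtain ⟨u', b', m', hI', hd'⟩ := hI.step hB hQ hρ ht hη hT (by linarith) hbc.2.1.2 hbc.2.2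
      refine ⟨u', b', m', hI', ?_⟩
      have h1 := dist_triangle b₀ b b'
      exact hB.arc Y R hρ A he.1 hb₀.1 hI'.pr.1 (by linarith) (by linarith) hfar₀
        (fun g hg => hI'.far hQ hbc.2.1.1.1 hde hg) (by linarith)
  obtain ⟨u, b, m, hI, hd⟩ := key
  obtain ⟨s, hs, hus⟩ := hI.near
  have h1 := proj_dist_le hI.pr hs
  have h2 := proj_dist_le hb₀ hs₀
  have h3 := dist_triangle4 u₀ b₀ b u
  rw [dist_comm b u] at h3
  have h4 := prj_le (W' := W') hQ u₀ u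
  rw [hu₀, hI.prj] at h4
  linarith

end Pool.Agent.H338.AN
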